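import Mathlib

set_option autoImplicit false

namespace Pool.Agent.H.MP_0d27c8_co

open Finset

/-- the largest number of external plus self private neighbours of one vertex set `U` -/
def ESPN {V : Type} [Fintype V] [DecidableEq V] (G : SimpleGraph V) [DecidableRel G.Adj] : ℕ :=
  (univ : Finset (Finset V)).sup fun U =>
    (univ.filter (fun w => w ∉ U ∧ (G.neighborFinset w ∩ U).card = 1)).card +
      (univ.filter (fun w => w ∈ U ∧ G.neighborFinset w ∩ U = ∅)).card

end Pool.Agent.H.MP_0d27c8_co
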